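import Pool.Agent.Run7.h125.Sat.Data5
import Pool.Agent.Run7.h125.Sat.Corner
import Pool.Agent.Run7.h125.Sat.CoverBy

/-!
# Corner-free sets in `(F_2^n)^2` larger than `(2 √3)^n`

Let `rc n` be the largest size of a corner-free subset of `(F_2^n)^2`.  The growth rate
`L = lim rc n ^ (1/n)` was known to be at least `2 √3 = 3.46410...`, by integer lifts with
Gaussian weights.  Here it is shown that this is not the truth: for all large `n` the plane
`(F_2^n)^2` is a union of at most `1.154^n` corner-free sets of at least `3.4665^n` points each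
(`2 / √3 = 1.1547...`).  Hence `L ≥ 3.4665 > 2 √3`, and a power-saving bound can only hold with a
saving `c < 0.10327`.

Proof: a set of cells of `(F_2^5)^2`, with weights, which can be peeled: its cells can be removed
one by one, such that a removed cell is, in one of its three roles, in no corner of the remaining
set.  It was found by a computer search; Lean checks it.
-/

namespace Pool.Agent.Results.MP_db4732_co.BeyondGaussian

open Finset Filter Topology Run7.h125.Sat.Corner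

/-- the constant -/
lemma base_le : (3.4665 : ℝ) ^ Run7.h125.Sat.Data5.p ≤ (2 : ℝ) ^ (3 * Run7.h125.Sat.Data5.q) := by
  have h : 34665 ^ Run7.h125.Sat.Data5.p ≤
      2 ^ (3 * Run7.h125.Sat.Data5.q) * 10000 ^ Run7.h125.Sat.Data5.p := by
    decide +kernel
  have h' : (34665 : ℝ) ^ Run7.h125.Sat.Data5.p ≤
      (2 : ℝ) ^ (3 * Run7.h125.Sat.Data5.q) * (10000 : ℝ) ^ Run7.h125.Sat.Data5.p := by
    exact_mod_cast h
  rw [show (3.4665 : ℝ) = 34665 / 10000 by norm_num, div_pow, div_le_iff₀ (by positivity)]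
  exact h'

/-- For all large `n` there is a corner-free set of at least `3.4665^n` points. -/
theorem large : ∃ n0 : ℕ, ∀ n : ℕ, n0 ≤ n → ∃ A : Finset (Q n),
    NoCorner A ∧ (3.4665 : ℝ) ^ n ≤ A.card := by
  obtain ⟨n0, h⟩ := Run7.h125.Sat.Data5.large
  refine ⟨n0, fun n hn => ?_⟩
  obtain ⟨A, hA, hc⟩ := h n hn
  refine ⟨A, hA, ?_⟩
  have hp : Run7.h125.Sat.Data5.p ≠ 0 := by decide
  have h1 : (2 : ℝ) ^ (3 * Run7.h125.Sat.Data5.q * n) ≤
      (A.card : ℝ) ^ Run7.h125.Sat.Data5.p := by exact_mod_cast hc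
  refine le_of_pow_le_pow_left₀ hp (Nat.cast_nonneg _) (le_trans ?_ h1)
  rw [← pow_mul, mul_comm n, pow_mul, pow_mul]
  exact pow_le_pow_left₀ (by positivity) base_le n

/-- `2 √3 < 3.4642` -/
lemma sqrt_lt : 2 * Real.sqrt 3 < 3.4642 := by
  have h : Real.sqrt 3 < 1.7321 := by
    rw [Real.sqrt_lt' (by norm_num)]
    norm_num
  linarith

/-- the limit of the rates is at least `3.4665` -/
lemma limit_ge {L : ℝ} (h : Tendsto (fun n : ℕ => (rc n : ℝ) ^ (1 / (n : ℝ))) atTop (𝓝 L)) :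
    3.4665 ≤ L := by
  obtain ⟨n0, hn0⟩ := large
  refine ge_of_tendsto h ?_
  filter_upwards [eventually_ge_atTop (max n0 1)] with n hn
  have hn1 : 1 ≤ n := le_trans (le_max_right _ _) hn
  have hn' : (0 : ℝ) < n := by exact_mod_cast hn1
  obtain ⟨A, hA, hc⟩ := hn0 n (le_trans (le_max_left _ _) hn)
  have h2 : (A.card : ℝ) ≤ (rc n : ℝ) := by exact_mod_cast le_rc (A := A) hA
  have h3 : ((3.4665 : ℝ) ^ n) ^ (1 / (n : ℝ)) = 3.4665 := by
    rw [← Real.rpow_natCast, ← Real.rpow_mul (by norm_num), mul_one_div_cancel hn'.ne',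
      Real.rpow_one]
  calc (3.4665 : ℝ) = ((3.4665 : ℝ) ^ n) ^ (1 / (n : ℝ)) := h3.symm
    _ ≤ (rc n : ℝ) ^ (1 / (n : ℝ)) := Real.rpow_le_rpow (by positivity) (hc.trans h2)
        (by positivity)

/-- `4^(1 - 0.10327) < 3.4665` -/
lemma four_pow_lt : (4 : ℝ) ^ (1 - 0.10327 : ℝ) < 3.4665 := by
  refine lt_of_pow_lt_pow_left₀ 50000 (by norm_num) ?_
  rw [← Real.rpow_natCast, ← Real.rpow_mul (by norm_num),
    show (4 : ℝ) = (2 : ℝ) ^ (2 : ℝ) by norm_num, ← Real.rpow_mul (by norm_num),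
    show (2 : ℝ) * ((1 - 0.10327) * ((50000 : ℕ) : ℝ)) = ((89673 : ℕ) : ℝ) by norm_num,
    Real.rpow_natCast, show (3.4665 : ℝ) = 34665 / 10000 by norm_num, div_pow,
    lt_div_iff₀ (by positivity)]
  have h : 2 ^ 89673 * 10000 ^ 50000 < 34665 ^ 50000 := by decide +kernel
  exact_mod_cast h

/-- a saving `c ≥ 0.10327` is impossible -/
lemma saving_lt (C c : ℝ)
    (h : ∀ n : ℕ, 1 ≤ n → ∀ A : Finset (Q n), NoCorner A →
      (A.card : ℝ) ≤ C * (4 : ℝ) ^ ((1 - c) * n)) : c < 0.10327 := by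
  by_contra hcon
  push Not at hcon
  set B : ℝ := (4 : ℝ) ^ (1 - c) with hB
  have hB0 : 0 < B := by positivity
  have hBlt : B < 3.4665 := by
    have h1 : B ≤ (4 : ℝ) ^ (1 - 0.10327 : ℝ) :=
      Real.rpow_le_rpow_of_exponent_le (by norm_num) (by linarith)
    exact h1.trans_lt four_pow_lt
  obtain ⟨n0, hn0⟩ := large
  have hlim := tendsto_pow_atTop_atTop_of_one_lt (show 1 < 3.4665 / B by rwa [one_lt_div hB0])
  obtain ⟨n1, hn1⟩ := eventually_atTop.1 (hlim.eventually (eventually_gt_atTop C))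
  obtain ⟨A, hA, hAc⟩ := hn0 (max (max n0 n1) 1) ((le_max_left _ _).trans (le_max_left _ _))
  have h1 := h _ (le_max_right _ _) A hA
  have h2 := hn1 _ ((le_max_right n0 n1).trans (le_max_left _ 1))
  rw [div_pow, lt_div_iff₀ (by positivity)] at h2
  rw [← base_pow] at h1
  linarith

/-- **Theorem.** For all large `n` the plane `(F_2^n)^2` is a union of at most `1.154^n`
corner-free sets of at least `3.4665^n` points each.  Hence the growth rate
`L = lim rc n ^ (1/n)` of the corner-free sets, which exists, is at least `3.4665`, and larger than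
`2 √3`; and a power-saving bound `|A| ≤ C 4^((1-c)n)` for all `n ≥ 1` and all corner-free
`A ⊆ (F_2^n)^2` needs `c < 0.10327`. -/
theorem result :
    (∃ n0 : ℕ, ∀ n : ℕ, n0 ≤ n → ∃ 𝒜 : Finset (Finset (Q n)),
      (𝒜.card : ℝ) ≤ (1.154 : ℝ) ^ n ∧
      (∀ A ∈ 𝒜, NoCorner A ∧ (3.4665 : ℝ) ^ n ≤ A.card) ∧ ∀ p, ∃ A ∈ 𝒜, p ∈ A) ∧
    (∃ L : ℝ, Tendsto (fun n : ℕ => (rc n : ℝ) ^ (1 / (n : ℝ))) atTop (𝓝 L) ∧
      2 * Real.sqrt 3 < 3.4665 ∧ 3.4665 ≤ L) ∧
    ∀ C c : ℝ, (∀ n : ℕ, 1 ≤ n → ∀ A : Finset (Q n), NoCorner A →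
      (A.card : ℝ) ≤ C * (4 : ℝ) ^ ((1 - c) * n)) → c < 0.10327 := by
  refine ⟨?_, ?_, saving_lt⟩
  · have h := Run7.h125.Sat.CoverBy.cover_of_large 3.4665 1.154 (by norm_num) (by norm_num)
      (by norm_num) (by
        obtain ⟨n0, h⟩ := large
        refine ⟨n0, fun n hn => ?_⟩
        obtain ⟨A, hA, hc⟩ := h n hn
        refine ⟨A, ?_, hc⟩
        intro x y z h1 h2 h3
        by_contra hz
        exact hA x y z hz ⟨h1, h2, h3⟩)
    obtain ⟨n0, h⟩ := h
    refine ⟨n0, fun n hn => ?_⟩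
    obtain ⟨𝒜, h1, h2, h3⟩ := h n hn
    exact ⟨𝒜, h1, fun A hA =>
      ⟨fun x y z hz hh => hz ((h2 A hA).1 x y z hh.1 hh.2.1 hh.2.2), (h2 A hA).2⟩, h3⟩
  · have hv : v 0 ≠ v 1 := by
      intro h
      have := congrArg Prod.snd h
      simp [v] at this
    obtain ⟨L, hL0, hlim, hle⟩ := Run7.h125.Sat.limit (p := 2) v hv
    have hlim' : Tendsto (fun n : ℕ => (rc n : ℝ) ^ (1 / (n : ℝ))) atTop (𝓝 L) := by
      simpa only [rc_eq] using hlim
    exact ⟨L, hlim', sqrt_lt.trans (by norm_num), limit_ge hlim'⟩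

end Pool.Agent.Results.MP_db4732_co.BeyondGaussian
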