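import Pool.Agent.Run7.h918.SP.Corn

/-!
# Corner-free subsets of random subsets of `(F_2^n)^2`: the exact exponent

Let `L = 2^α` be the growth rate of the largest corner-free subsets of `(F_2^n)^2`
(`3/2 ≤ α ≤ 2`; a power saving is the statement `α < 2`).  Let `R` be a random subset of
`(F_2^n)^2` which contains each point independently with probability `2^(-x n)`, `0 ≤ x < 2`.  With
probability tending to one the largest corner-free subset of `R` has `2^((φ(x) + o(1)) n)`
elements, where `φ(x) = 3 x + α (1 - 2 x)` for `x ≤ 1/2` and `φ(x) = 2 - x` for `x > 1/2`.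

Hence for each fixed `x` in `[0, 1/2)` and `c > 0` the power-saving bound `4^((1-c) n)` for all
corner-free sets is equivalent to the bound `2^((2 - x - 2 c (1 - 2 x) + o(1)) n)` for the
corner-free subsets of a random set of density `2^(-x n)`; so a power saving in sparse random sets
of one fixed density is equivalent to a positive answer to the question.

Upper bound: containers, with the supersaturation of helper125 (a set of density `δ` has at least
`δ^(1 + 1/(2 c)) 8^n` corners if `L ≤ 4^(1-c)`).  Lower bound: preimages of extremal sets under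
projections to `(F_2^m)^2`.
-/

set_option autoImplicit false

namespace Pool.Agent.Results.MP_db4732_co.CornersInRandomSets

open Finset Filter Topology Run7.h125.Sat.Corner
open Pool.Agent.Run7.h918.SP (Pr)

/-- the exponent: `3 x + α (1 - 2 x)` for `x ≤ 1/2` and `2 - x` for `x > 1/2` -/
noncomputable def phi (α x : ℝ) : ℝ := if x ≤ 1 / 2 then 3 * x + α * (1 - 2 * x) else 2 - x

/-- The power-saving bound with saving `c`: `|A| ≤ C 4^((1-c)n)` for all corner-free sets. -/
def Saving (c : ℝ) : Prop :=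
  ∃ C : ℝ, ∀ n : ℕ, 1 ≤ n → ∀ A : Finset (Q n), NoCorner A →
    (A.card : ℝ) ≤ C * (4 : ℝ) ^ ((1 - c) * n)

open Classical in
/-- The bound with saving `c` for the corner-free subsets of the random set of density
`2^(-x n)`. -/
def RandomSaving (x c : ℝ) : Prop :=
  ∀ ε : ℝ, 0 < ε → Tendsto (fun n : ℕ => Pr (V := Q n) ((2 : ℝ) ^ (-(x * n))) fun R =>
    ∀ A ⊆ R, NoCorner A → (A.card : ℝ) ≤ (2 : ℝ) ^ ((2 - x - 2 * c * (1 - 2 * x) + ε) * n))
      atTop (𝓝 1)

open Classical in
/-- **Theorem.** Let `L = 2^α` be the growth rate of the largest corner-free subsets of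
`(F_2^n)^2`.  `Pr q E` is the probability of the event `E` for the random subset of density `q`.
The largest corner-free subset of the random set of density `2^(-x n)` has
`2^((phi α x + o(1)) n)` elements with probability `1 - o(1)`; for each `x` in `[0, 1/2)` the
power-saving bound with saving `c` is equivalent to its sparse random version. -/
theorem result :
    ∃ L α : ℝ, Tendsto (fun n : ℕ => (rc n : ℝ) ^ (1 / (n : ℝ))) atTop (𝓝 L) ∧
      L = (2 : ℝ) ^ α ∧ 3 / 2 ≤ α ∧ α ≤ 2 ∧
      (∀ x : ℝ, 0 ≤ x → x < 2 → ∀ ε : ℝ, 0 < ε →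
        Tendsto (fun n : ℕ => Pr (V := Q n) ((2 : ℝ) ^ (-(x * n))) fun R =>
          (∃ A ⊆ R, NoCorner A ∧ (2 : ℝ) ^ ((phi α x - ε) * n) ≤ (A.card : ℝ)) ∧
          ∀ A ⊆ R, NoCorner A → (A.card : ℝ) ≤ (2 : ℝ) ^ ((phi α x + ε) * n)) atTop (𝓝 1)) ∧
      ∀ x : ℝ, 0 ≤ x → x < 1 / 2 → ∀ c : ℝ, Saving c ↔ RandomSaving x c := by
  obtain ⟨L, α, γ, hg⟩ := Pool.Agent.Run7.h918.SP.growth (p := 2)
    Pool.Agent.Run7.h918.SP.Corn.v_inj
  have hγ : γ = 2 := Pool.Agent.Run7.h918.SP.Corn.gamma hg
  subst hγ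
  have hα1 := hg.half
  have hα2 := hg.le_γ
  have hL : L = (2 : ℝ) ^ α := by
    have := hg.hL
    norm_num at this
    exact this
  have hphi : ∀ x : ℝ, phi α x = 2 - x - (2 - α) * max 0 (1 - 2 * x) := by
    intro x
    unfold phi
    split_ifs with h
    · rw [max_eq_right (by linarith)]; ring
    · push Not at h
      rw [max_eq_left (by linarith)]; ring
  have hpos : ∀ x : ℝ, x < 2 → 0 < phi α x := by
    intro x hx
    unfold phi
    split_ifs with h
    · nlinarith
    · linarith
  refine ⟨L, α, ?_, hL, by linarith, hα2, ?_, ?_⟩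
  · simpa only [rc_eq] using hg.lim
  · intro x hx hx1 ε hε
    have h := Pool.Agent.Run7.h918.SP.both Pool.Agent.Run7.h918.SP.Corn.v_inj hg hx (hphi x)
      (hpos x hx1) hε
    rw [Nat.cast_ofNat] at h
    refine h.congr fun n => ?_
    symm
    apply Pool.Agent.Run7.h918.SP.Corn.Pr_equiv (E n)
    intro S
    rw [Pool.Agent.Run7.h918.SP.Corn.ex_iff S
        (fun t => (2 : ℝ) ^ ((phi α x - ε) * n) ≤ (t : ℝ)),
      Pool.Agent.Run7.h918.SP.Corn.all_iff S
        (fun t => (t : ℝ) ≤ (2 : ℝ) ^ ((phi α x + ε) * n))]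
  · intro x hx hx1 c
    have h := Pool.Agent.Run7.h918.SP.equiv Pool.Agent.Run7.h918.SP.Corn.v_inj hg hx (hphi x)
      (hpos x (by linarith)) (2 - x - 2 * c * (1 - 2 * x))
    rw [Nat.cast_ofNat] at h
    have h1 : RandomSaving x c ↔ phi α x ≤ 2 - x - 2 * c * (1 - 2 * x) := by
      rw [← h]
      refine forall_congr' fun ε => forall_congr' fun hε => ?_
      apply Filter.tendsto_congr
      intro n
      apply Pool.Agent.Run7.h918.SP.Corn.Pr_equiv (E n)
      intro S
      exact Pool.Agent.Run7.h918.SP.Corn.all_iff S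
        (fun t => (t : ℝ) ≤ (2 : ℝ) ^ ((2 - x - 2 * c * (1 - 2 * x) + ε) * n))
    have h2 : phi α x ≤ 2 - x - 2 * c * (1 - 2 * x) ↔ α ≤ 2 - 2 * c := by
      unfold phi
      rw [if_pos hx1.le]
      constructor
      · intro h2
        have h3 : α * (1 - 2 * x) ≤ (2 - 2 * c) * (1 - 2 * x) := by linarith
        exact le_of_mul_le_mul_right h3 (by linarith)
      · intro h2
        have := mul_le_mul_of_nonneg_right h2 (show 0 ≤ 1 - 2 * x by linarith)
        linarith
    have e4 : ∀ n : ℕ, (4 : ℝ) ^ ((1 - c) * n) = ((2 : ℝ) ^ (2 - 2 * c)) ^ n := by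
      intro n
      have : (4 : ℝ) = (2 : ℝ) ^ (2 : ℝ) := by norm_num
      rw [this, ← Real.rpow_mul (by norm_num), ← Real.rpow_mul_natCast (by norm_num)]
      congr 1
      ring
    rw [h1, h2]
    constructor
    · rintro ⟨C, hC⟩
      have h3 : ∀ n : ℕ, 1 ≤ n → (Run7.h125.Sat.r 2 v n : ℝ) ≤ ((2 : ℝ) ^ (2 - 2 * c)) ^ n := by
        refine Run7.h125.Sat.r_le_of_const v _ C (by positivity) ?_
        intro n hn
        obtain ⟨A, hA, hc⟩ := exists_rc n
        rw [← rc_eq, ← hc, ← e4]
        exact hC n hn A hA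
      have h4 : L ≤ (2 : ℝ) ^ (2 - 2 * c) := by
        refine le_of_tendsto hg.lim ?_
        filter_upwards [eventually_ge_atTop 1] with n hn
        have hn' : (0 : ℝ) < n := by exact_mod_cast hn
        calc (Run7.h125.Sat.r 2 v n : ℝ) ^ (1 / (n : ℝ))
            ≤ (((2 : ℝ) ^ (2 - 2 * c)) ^ n) ^ (1 / (n : ℝ)) :=
              Real.rpow_le_rpow (Nat.cast_nonneg _) (h3 n hn) (by positivity)
          _ = (2 : ℝ) ^ (2 - 2 * c) := by
              rw [← Real.rpow_natCast, ← Real.rpow_mul (by positivity),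
                mul_one_div_cancel hn'.ne', Real.rpow_one]
      rw [hL, Real.rpow_le_rpow_left_iff (by norm_num)] at h4
      exact h4
    · intro h3
      refine ⟨1, fun n _ A hA => ?_⟩
      rw [one_mul, e4]
      have h4 : (A.card : ℝ) ≤ L ^ n := by
        refine le_trans ?_ (hg.le n)
        rw [← rc_eq]
        exact_mod_cast le_rc hA
      refine h4.trans (pow_le_pow_left₀ hg.pos.le ?_ n)
      rw [hL]
      exact Real.rpow_le_rpow_of_exponent_le (by norm_num) h3

end Pool.Agent.Results.MP_db4732_co.CornersInRandomSets
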