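import Pool.Agent.Run7.h125.Sat.Corner
import Pool.Agent.Results.MP_db4732_co.GaussianLifts

/-!
# Corner-free sets in `(F_2^n)^2`: power saving, sharp supersaturation, and the growth rate

Let `rc n` be the largest size of a corner-free subset of `(F_2^n)^2`.

* `rc n ^ (1/n)` tends to a limit `L` between `2 √3` and `4`, which is NOT attained: `rc n < L^n`
  for all `n ≥ 1`.
* For every `c > 0` the power-saving bound with saving `c` (for all corner-free sets, with some
  constant) is equivalent to the same bound with constant one and strict inequality, to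
  `L ≤ 4^(1-c)`, and to a sharp polynomial supersaturation: every set of density `α` contains at
  least `α^(1 + 1/(2c)) 8^n` corners.  A constant factor in the last statement is irrelevant.

Proof.  Let `t` be the number of nontrivial corners of `A ⊆ (F_2^(n+m))^2`.  Restricting to a
suitable coset of a hyperplane (in both coordinates) divides the size by 4 and `t` by 8; after `m`
such steps one point of every remaining nontrivial corner is removed.  This gives
`2^m |A| ≤ t + 8^m rc n`.  Applied to powers of `A`, with `2^m` about `2 (t / |A|)`, it gives the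
supersaturation without any constant.  Applied to the words of `N` blocks which are all in an
extremal set `A ⊆ (F_2^n)^2` but for one block, which is a fixed point outside of `A`, it shows
that `rc n = L^n` is impossible, as `L > 2^(2 - 1/3)`.
-/

namespace Pool.Agent.Results.MP_db4732_co.SharpSupersaturation

open Finset Filter Topology Run7.h125.Sat Run7.h125.Sat.Corner

/-- The power-saving bound with saving `c`, for all corner-free sets: `|A| ≤ C 4^((1-c)n)`. -/
def Saving (c : ℝ) : Prop :=
  ∃ C : ℝ, ∀ n : ℕ, 1 ≤ n → ∀ A : Finset (Q n), NoCorner A →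
    (A.card : ℝ) ≤ C * (4 : ℝ) ^ ((1 - c) * n)

/-- The power-saving bound with saving `c`, with constant one, and strict. -/
def StrictSaving (c : ℝ) : Prop :=
  ∀ n : ℕ, 1 ≤ n → ∀ A : Finset (Q n), NoCorner A → (A.card : ℝ) < (4 : ℝ) ^ ((1 - c) * n)

/-- Every set of density `α` has at least `α^K 8^n` corners (the trivial ones are counted). -/
def Supersaturation (K : ℝ) : Prop :=
  ∀ n : ℕ, ∀ A : Finset (Q n), ((A.card : ℝ) / 4 ^ n) ^ K * 8 ^ n ≤ (corners A : ℝ)

/-- The same up to a constant factor. -/
def WeakSupersaturation (K : ℝ) : Prop :=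
  ∃ κ : ℝ, 0 < κ ∧ ∀ n : ℕ, 1 ≤ n → ∀ A : Finset (Q n),
    κ * (((A.card : ℝ) / 4 ^ n) ^ K * 8 ^ n) ≤ (corners A : ℝ)

lemma saving_lt {c : ℝ} (h : Saving c) : c < 0.1038 := by
  obtain ⟨C, hC⟩ := h
  exact Pool.Agent.Results.MP_db4732_co.GaussianLifts.saving_two C c hC

/-- the bound without a constant, in terms of `r` -/
def Clean (c : ℝ) : Prop := ∀ n : ℕ, (r 2 v n : ℝ) ≤
  ((Fintype.card (ZMod 2 × ZMod 2) : ℝ) * ((2 : ℕ) : ℝ) ^ (-(2 * c))) ^ n

lemma clean_of_saving {c : ℝ} (h : Saving c) : Clean c := by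
  obtain ⟨C, hC⟩ := h
  intro n
  rcases Nat.eq_zero_or_pos n with rfl | hn
  · have := r_le_pow (p := 2) v 0
    simp only [pow_zero] at this ⊢
    exact_mod_cast this
  refine r_le_of_const v _ C (by rw [base]; positivity) ?_ n hn
  intro n hn
  obtain ⟨A, hA, hc⟩ := exists_rc n
  rw [← rc_eq, ← hc, base, base_pow]
  exact hC n hn A hA

lemma strict_of_clean {c : ℝ} (hc : 0 < c) (h : Clean c) : StrictSaving c := by
  have hS : Saving c := by
    refine ⟨1, fun n _ A hA => ?_⟩
    have h1 := h n
    rw [base, base_pow, ← rc_eq] at h1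
    rw [one_mul]
    refine le_trans ?_ h1
    exact_mod_cast le_rc hA
  have hlt := saving_lt hS
  intro n hn A hA
  have h1 := strict (p := 2) v (2 * c) (by linarith)
    (by rw [Fintype.card_fin]; push_cast; linarith) h n hn
  rw [base, base_pow, ← rc_eq] at h1
  refine lt_of_le_of_lt ?_ h1
  exact_mod_cast le_rc hA

lemma letters_pow (n : ℕ) : (Fintype.card (ZMod 2 × ZMod 2) : ℝ) ^ n = 4 ^ n := by
  rw [card_letters]

lemma letters_pow' (n : ℕ) :
    ((Fintype.card (ZMod 2 × ZMod 2) : ℝ) * ((2 : ℕ) : ℝ)) ^ n = 8 ^ n := by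
  rw [card_letters]; norm_num

lemma super_of_clean {c : ℝ} (hc : 0 < c) (h : Clean c) : Supersaturation (1 + 1 / (2 * c)) := by
  intro n A
  have h1 := supersat' (p := 2) v (2 * c) (by linarith) h (A.map (E n).toEmbedding)
  rwa [← corners_eq, card_map, letters_pow, letters_pow'] at h1

lemma clean_of_weak {c : ℝ} (hc : 0 < c) (h : WeakSupersaturation (1 + 1 / (2 * c))) :
    Clean c := by
  obtain ⟨κ, hκ, h⟩ := h
  refine saving_of_supersat (p := 2) v (2 * c) κ (by linarith) hκ ?_
  intro n hn A
  have h1 := h n hn (A.map (E n).symm.toEmbedding)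
  have e : (A.map (E n).symm.toEmbedding).map (E n).toEmbedding = A := by
    ext w; simp
  rw [corners_eq, e, card_map] at h1
  rwa [letters_pow, letters_pow']

/-- **Theorem.** There is a number `L` with `2 √3 ≤ L ≤ 4` such that, for the largest size `rc n`
of a corner-free subset of `(F_2^n)^2`,
1. `rc n ^ (1/n) → L`, and `rc n < L^n` for every `n ≥ 1`;
2. for every `c > 0` the following are equivalent: the power-saving bound with saving `c` for all
   corner-free sets; the bound `|A| < 4^((1-c)n)` for all corner-free sets, without a constant and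
   strict; `L ≤ 4^(1-c)`; every `A ⊆ (F_2^n)^2` of density `α` contains at least
   `α^(1+1/(2c)) 8^n` corners; the same up to a constant factor. -/
theorem result : ∃ L : ℝ, 2 * Real.sqrt 3 ≤ L ∧ L ≤ 4 ∧
    Tendsto (fun n : ℕ => (rc n : ℝ) ^ (1 / (n : ℝ))) atTop (𝓝 L) ∧
    (∀ n : ℕ, 1 ≤ n → (rc n : ℝ) < L ^ n) ∧
    ∀ c : ℝ, 0 < c → List.TFAE [Saving c, StrictSaving c, L ≤ (4 : ℝ) ^ (1 - c),
      Supersaturation (1 + 1 / (2 * c)), WeakSupersaturation (1 + 1 / (2 * c))] := by
  have hv : v 0 ≠ v 1 := by
    intro h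
    have := congrArg Prod.snd h
    simp [v] at this
  obtain ⟨L, hL0, hlim, hle⟩ := limit (p := 2) v hv
  have hlim' : Tendsto (fun n : ℕ => (rc n : ℝ) ^ (1 / (n : ℝ))) atTop (𝓝 L) := by
    simpa only [rc_eq] using hlim
  -- upper bound for `L`
  have hup : ∀ R : ℝ, 0 < R → (∀ n : ℕ, (r 2 v n : ℝ) ≤ R ^ n) → L ≤ R := by
    intro R hR h
    refine le_of_tendsto hlim ?_
    filter_upwards [eventually_ge_atTop 1] with n hn
    have hn' : (0 : ℝ) < n := by exact_mod_cast hn
    calc (r 2 v n : ℝ) ^ (1 / (n : ℝ)) ≤ (R ^ n) ^ (1 / (n : ℝ)) :=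
          Real.rpow_le_rpow (Nat.cast_nonneg _) (h n) (by positivity)
      _ = R := by
          rw [← Real.rpow_natCast, ← Real.rpow_mul hR.le, mul_one_div_cancel hn'.ne',
            Real.rpow_one]
  have hL4 : L ≤ 4 := by
    apply hup 4 (by norm_num)
    intro n
    have h1 : (r 2 v n : ℝ) ≤ (Fintype.card (ZMod 2 × ZMod 2) : ℝ) ^ n := by
      exact_mod_cast r_le_pow (p := 2) v n
    rwa [card_letters] at h1
  -- lower bound for `L`
  have hlow : 2 * Real.sqrt 3 ≤ L := by
    apply le_of_forall_lt
    intro t ht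
    rcases lt_or_ge t 1 with h1 | h1
    · have : (1 : ℝ) ≤ L := by
        refine ge_of_tendsto hlim ?_
        filter_upwards with n
        have h2 : (1 : ℝ) ≤ r 2 v n := by exact_mod_cast one_le_r (p := 2) v hv n
        exact Real.one_le_rpow h2 (by positivity)
      linarith
    obtain ⟨t', ht1, ht2⟩ := exists_between ht
    have ht0 : 0 ≤ t' := by linarith
    obtain ⟨n0, hn0⟩ := Pool.Agent.Results.MP_db4732_co.GaussianLifts.large 2 t' ht0 (by
      push_cast; linarith)
    refine lt_of_lt_of_le ht1 ?_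
    refine ge_of_tendsto hlim ?_
    filter_upwards [eventually_ge_atTop (max n0 1)] with n hn
    have hn1 : 1 ≤ n := le_trans (le_max_right _ _) hn
    have hn' : (0 : ℝ) < n := by exact_mod_cast hn1
    obtain ⟨A, hA, hc⟩ := hn0 n (le_trans (le_max_left _ _) hn)
    have h2 : (A.card : ℝ) ≤ (r 2 v n : ℝ) := by
      rw [← rc_eq]
      exact_mod_cast le_rc (A := A) hA
    calc t' = (t' ^ n) ^ (1 / (n : ℝ)) := by
          rw [← Real.rpow_natCast, ← Real.rpow_mul ht0, mul_one_div_cancel hn'.ne',
            Real.rpow_one]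
      _ ≤ (r 2 v n : ℝ) ^ (1 / (n : ℝ)) :=
          Real.rpow_le_rpow (by positivity) (hc.trans h2) (by positivity)
  have hclean : ∀ c : ℝ, Clean c ↔ L ≤ (4 : ℝ) ^ (1 - c) := by
    intro c
    constructor
    · intro h
      rw [← base]
      refine hup _ ?_ h
      rw [base]; positivity
    · intro h n
      rw [base]
      exact (hle n).trans (pow_le_pow_left₀ hL0.le h n)
  refine ⟨L, hlow, hL4, hlim', ?_, ?_⟩
  · intro n hn
    rcases hL4.lt_or_eq with h4 | h4
    · set c : ℝ := 1 - Real.logb 4 L with hc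
      have hc4 : (4 : ℝ) ^ (1 - c) = L := by
        rw [hc, sub_sub_cancel, Real.rpow_logb (by norm_num) (by norm_num) hL0]
      have hc0 : 0 < c := by
        have : Real.logb 4 L < 1 := by
          rw [Real.logb_lt_iff_lt_rpow (by norm_num) hL0, Real.rpow_one]
          exact h4
        linarith
      have h1 := strict_of_clean hc0 ((hclean c).2 hc4.ge)
      obtain ⟨A, hA, hcard⟩ := exists_rc n
      have h2 := h1 n hn A hA
      rwa [hcard, ← base_pow, hc4] at h2
    · rw [h4, rc_eq]
      obtain ⟨A, hA, hcard⟩ := exists_r (p := 2) v n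
      have hne : A ≠ univ := by
        rintro rfl
        have := hA 0 (fun _ => 1) fun j => mem_univ _
        have h1 := congrFun this ⟨0, hn⟩
        simp at h1
      have h2 : A.card < Fintype.card (Fin n → ZMod 2 × ZMod 2) :=
        (card_lt_iff_ne_univ A).2 hne
      rw [hcard, Fintype.card_fun, Fintype.card_fin, Fintype.card_prod, ZMod.card] at h2
      exact_mod_cast h2
  · intro c hc
    tfae_have 1 → 3 := fun h => (hclean c).1 (clean_of_saving h)
    tfae_have 3 → 2 := fun h => strict_of_clean hc ((hclean c).2 h)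
    tfae_have 2 → 1 := fun h => ⟨1, fun n hn A hA => by rw [one_mul]; exact (h n hn A hA).le⟩
    tfae_have 3 → 4 := fun h => super_of_clean hc ((hclean c).2 h)
    tfae_have 4 → 5 := fun h => ⟨1, one_pos, fun n _ A => by rw [one_mul]; exact h n A⟩
    tfae_have 5 → 3 := fun h => (hclean c).1 (clean_of_weak hc h)
    tfae_finish

end Pool.Agent.Results.MP_db4732_co.SharpSupersaturation
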