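import Pool.Agent.Run7.h945.SG.Young

/-!
# Corner-free sets in `(F_2^n)^2` and Young's inequality

A corner `(x, y), (x, y + z), (x + z, y)` has one side in each of the three directions of the
projections `x`, `y` and `s = x + y`. Let `X`, `Y`, `S` be the images of a corner-free set `A` under
these projections. Trivially `|A|^3 ≤ (|X| |Y| |S|)^2`, and more generally, by Young's inequality,
`∑_{(x,y) ∈ A} f(x) g(y) h(x+y) ≤ ‖f‖_q ‖g‖_q ‖h‖_q` with `q = 3/2`, for all nonnegative `f, g, h`.

We show that the power-saving bound `|A| ≤ C 4^((1-c)n)` for all corner-free sets is equivalent, with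
the same `c`, to Young's inequality over corner-free sets with the larger exponent
`q = 3 / (2 (1 - c))` (with constant one or with any constant independent of `n`), to
`|A|^3 ≤ (|X| |Y| |S|)^(2(1-c))`, and to the sparse bound `|A| ≤ N^(2(1-c))` for the corner-free sets
whose three projections have at most `N` elements. The dimension `n` does not occur in these bounds.

Proof. If `2^m ≥ 2(|X| + |Y| + |S|)`, a random linear map `φ` to `F_2^m` has for at least half of the
points `(x, y)` of `A` the property that `φ` takes the value `φ(x)` only once on `X`, and similarly for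
`y` and `x + y`. The image of these points is corner-free. This is applied to the products of many
copies of `A` with the roles of `x`, `y`, `x + y` permuted cyclically, which makes the three numbers
equal and removes the constants. The functions are decomposed into level sets in high powers.
-/

set_option autoImplicit false

namespace Pool.Agent.Results.MP_db4732_co.YoungInequality

open Finset

/-- `(F_2^n)^2` -/
abbrev Q (n : ℕ) : Type := (Fin n → ZMod 2) × (Fin n → ZMod 2)

/-- `A ⊆ (F_2^n)^2` contains no nontrivial corner `(x, y), (x, y + z), (x + z, y)`, `z ≠ 0`. -/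
def CornerFree {n : ℕ} (A : Finset (Q n)) : Prop :=
  ∀ x y z : Fin n → ZMod 2, z ≠ 0 → ¬ ((x, y) ∈ A ∧ (x, y + z) ∈ A ∧ (x + z, y) ∈ A)

/-- the first coordinates of the points of `A` -/
def X {n : ℕ} (A : Finset (Q n)) : Finset (Fin n → ZMod 2) := A.image fun q => q.1

/-- the second coordinates of the points of `A` -/
def Y {n : ℕ} (A : Finset (Q n)) : Finset (Fin n → ZMod 2) := A.image fun q => q.2

/-- the sums of the coordinates of the points of `A` -/
def S {n : ℕ} (A : Finset (Q n)) : Finset (Fin n → ZMod 2) := A.image fun q => q.1 + q.2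

/-- The power-saving bound with saving `c` for all corner-free sets. -/
def Saving (c : ℝ) : Prop :=
  ∃ C : ℝ, 0 < C ∧ ∀ n : ℕ, 1 ≤ n → ∀ A : Finset (Q n), CornerFree A →
    (#A : ℝ) ≤ C * (4 : ℝ) ^ ((1 - c) * (n : ℝ))

/-- The norm `‖f‖_q` with respect to the counting measure on `F_2^n`. -/
noncomputable def lq {n : ℕ} (q : ℝ) (f : (Fin n → ZMod 2) → ℝ) : ℝ := (∑ x, f x ^ q) ^ (1 / q)

/-- Young's inequality over corner-free sets with exponent `q` and constant `C`: for all `n`, all
corner-free `A ⊆ (F_2^n)^2` and all nonnegative functions `f, g, h` on `F_2^n`. -/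
def Young (C q : ℝ) : Prop :=
  ∀ (n : ℕ) (A : Finset (Q n)), CornerFree A → ∀ f g h : (Fin n → ZMod 2) → ℝ,
    (∀ x, 0 ≤ f x) → (∀ x, 0 ≤ g x) → (∀ x, 0 ≤ h x) →
    ∑ a ∈ A, f a.1 * g a.2 * h (a.1 + a.2) ≤ C * (lq q f * lq q g * lq q h)

/-- The bound by the sizes of the projections, for all `n` and all corner-free sets. -/
def Projection (C c : ℝ) : Prop :=
  ∀ (n : ℕ) (A : Finset (Q n)), CornerFree A →
    (#A : ℝ) ^ 3 ≤ C * ((#(X A) * #(Y A) * #(S A) : ℕ) : ℝ) ^ (2 * (1 - c))

/-- The bound for the corner-free sets (in any dimension `n`) whose three projections have at most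
`N` elements. -/
def Sparse (C c : ℝ) : Prop :=
  ∀ (n N : ℕ) (A : Finset (Q n)), CornerFree A →
    #(X A) ≤ N → #(Y A) ≤ N → #(S A) ≤ N → (#A : ℝ) ≤ C * (N : ℝ) ^ (2 * (1 - c))

open Pool.Agent.Run7.h945.SG Run7.h125.Sat Run7.h125.Sat.Corner

lemma clean {c : ℝ} (h : Saving c) (m : ℕ) : (rc m : ℝ) ≤ ((4 : ℝ) ^ (1 - c)) ^ m := by
  obtain ⟨C, -, hC⟩ := h
  rcases Nat.eq_zero_or_pos m with rfl | hm
  · have := r_le_pow (p := 2) Corner.v 0
    rw [rc_eq]
    simp only [pow_zero] at this ⊢
    exact_mod_cast this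
  rw [rc_eq]
  refine r_le_of_const (p := 2) Corner.v _ C (by positivity) ?_ m hm
  intro n hn
  obtain ⟨A, hA, hc⟩ := exists_rc n
  rw [← rc_eq, ← hc, base_pow]
  exact hC n hn A hA

lemma tri {n : ℕ} {A : Finset (Q n)} (h : CornerFree A) : Tri A := (tri_iff A).1 h

lemma projection_of_saving {c : ℝ} (hc : c ≤ 1) (h : Saving c) : Projection 1 c := fun n A hA => by
  have h1 := size_bound hc (clean h) (tri hA)
  rw [one_mul]
  simpa [R, X, Y, S, px, py, ps] using h1

lemma young_of_projection {c : ℝ} (hc : c < 1) (h : Projection 1 c) :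
    Young 1 (3 / (2 * (1 - c))) := by
  intro n A hA f g h' hf hg hh
  have hα : 0 < 2 * (1 - c) / 3 := by linarith
  have e : 1 / (2 * (1 - c) / 3) = 3 / (2 * (1 - c)) := by rw [one_div_div]
  have e' : 1 / (3 / (2 * (1 - c))) = 2 * (1 - c) / 3 := by rw [one_div_div]
  have h1 := young_of_size hα (V := Fin n → ZMod 2) (fun N B hB => by
    -- transport to `F_2^(N n)`
    have h2 : ∃ (B' : Finset (Q (N * n))), CornerFree B' ∧ #B' = #B ∧ #(X B') = #(px B) ∧
        #(Y B') = #(py B) ∧ #(S B') = #(ps B) := by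
      let e0 : (Fin N → Fin n → ZMod 2) ≃+ (Fin (N * n) → ZMod 2) :=
        { toEquiv := (Equiv.curry (Fin N) (Fin n) (ZMod 2)).symm.trans
            (Equiv.arrowCongr finProdFinEquiv (Equiv.refl _))
          map_add' := fun x y => rfl }
      let E : (Fin N → Fin n → ZMod 2) × (Fin N → Fin n → ZMod 2) ≃ Q (N * n) :=
        Equiv.prodCongr e0.toEquiv e0.toEquiv
      refine ⟨B.map E.toEmbedding, ?_, card_map _, ?_, ?_, ?_⟩
      · refine (tri_iff _).2 ?_
        intro a' ha' b' hb' c' hc' g1 g2 g3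
        obtain ⟨a, ha, rfl⟩ := mem_map.1 ha'
        obtain ⟨b, hb, rfl⟩ := mem_map.1 hb'
        obtain ⟨c0, hc0, rfl⟩ := mem_map.1 hc'
        have g1' : e0 a.1 = e0 b.1 := g1
        have g2' : e0 a.2 = e0 c0.2 := g2
        have g3' : e0 b.1 + e0 b.2 = e0 c0.1 + e0 c0.2 := g3
        rw [← map_add, ← map_add] at g3'
        rw [hB a ha b hb c0 hc0 (e0.injective g1') (e0.injective g2') (e0.injective g3')]
      · rw [px, ← card_image_of_injective _ e0.injective]
        congr 1
        rw [X, map_eq_image, image_image, image_image]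
        rfl
      · rw [py, ← card_image_of_injective _ e0.injective]
        congr 1
        rw [Y, map_eq_image, image_image, image_image]
        rfl
      · rw [ps, ← card_image_of_injective _ e0.injective]
        congr 1
        rw [S, map_eq_image, image_image, image_image]
        refine image_congr fun q _ => ?_
        exact (map_add e0 q.1 q.2).symm
    obtain ⟨B', hB', c0, c1, c2, c3⟩ := h2
    have h3 := h (N * n) B' hB'
    rw [c0, c1, c2, c3, one_mul] at h3
    have h4 := Real.rpow_le_rpow (by positivity) h3 (show (0 : ℝ) ≤ 1 / 3 by norm_num)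
    rw [← Real.rpow_natCast, ← Real.rpow_mul (Nat.cast_nonneg _),
      ← Real.rpow_mul (Nat.cast_nonneg _)] at h4
    rw [show ((3 : ℕ) : ℝ) * (1 / 3) = 1 by norm_num, Real.rpow_one,
      show 2 * (1 - c) * (1 / 3) = 2 * (1 - c) / 3 by ring] at h4
    exact h4) (tri hA) f g h' hf hg hh
  rw [one_mul]
  simp only [nrm, e] at h1
  simp only [lq, e']
  exact h1

lemma card_le_two (n : ℕ) (B : Finset (Fin n → ZMod 2)) : #B ≤ 2 ^ n := by
  have h := card_le_univ B
  rwa [Fintype.card_fun, ZMod.card, Fintype.card_fin] at h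

/-- the norm of the indicator function of a set -/
lemma lq_indicator {n : ℕ} {q : ℝ} (hq : 0 < q) (B : Finset (Fin n → ZMod 2)) :
    lq q (fun x => if x ∈ B then 1 else 0) = (#B : ℝ) ^ (1 / q) := by
  rw [lq]
  congr 1
  rw [card_eq_sum_ones, Nat.cast_sum, ← sum_filter_add_sum_filter_not univ (fun x => x ∈ B)]
  have h1 : ∑ x ∈ univ.filter (fun x => ¬ x ∈ B), (if x ∈ B then (1 : ℝ) else 0) ^ q = 0 :=
    sum_eq_zero fun x hx => by
      rw [if_neg (mem_filter.1 hx).2, Real.zero_rpow hq.ne']
  rw [h1, add_zero, filter_mem_eq_inter, univ_inter]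
  refine sum_congr rfl fun x hx => ?_
  rw [if_pos hx, Real.one_rpow, Nat.cast_one]

lemma projection_of_young {c C : ℝ} (hc : c < 1) (hC : 0 < C) (h : Young C (3 / (2 * (1 - c)))) :
    Projection (C ^ 3) c := by
  intro n A hA
  have hq : 0 < 3 / (2 * (1 - c)) := by
    have : 0 < 1 - c := by linarith
    positivity
  have h1 := h n A hA (fun x => if x ∈ X A then 1 else 0) (fun x => if x ∈ Y A then 1 else 0)
    (fun x => if x ∈ S A then 1 else 0) (fun x => by positivity) (fun x => by positivity)
    (fun x => by positivity)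
  rw [lq_indicator hq, lq_indicator hq, lq_indicator hq] at h1
  have h2 : ∑ a ∈ A, (if a.1 ∈ X A then (1 : ℝ) else 0) * (if a.2 ∈ Y A then 1 else 0) *
      (if a.1 + a.2 ∈ S A then 1 else 0) = #A := by
    rw [card_eq_sum_ones, Nat.cast_sum]
    refine sum_congr rfl fun a ha => ?_
    have m1 : a.1 ∈ X A := mem_image_of_mem (fun q : Q n => q.1) ha
    have m2 : a.2 ∈ Y A := mem_image_of_mem (fun q : Q n => q.2) ha
    have m3 : a.1 + a.2 ∈ S A := mem_image_of_mem (fun q : Q n => q.1 + q.2) ha
    rw [if_pos m1, if_pos m2, if_pos m3]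
    norm_num
  rw [h2, ← Real.mul_rpow (by positivity) (by positivity),
    ← Real.mul_rpow (by positivity) (by positivity)] at h1
  have h3 := pow_le_pow_left₀ (by positivity) h1 3
  refine h3.trans (le_of_eq ?_)
  rw [mul_pow, ← Real.rpow_natCast (_ ^ (1 / (3 / (2 * (1 - c))))) 3,
    ← Real.rpow_mul (by positivity)]
  congr 1
  push_cast
  congr 1
  rw [one_div_div]
  ring

lemma sparse_of_projection {c C : ℝ} (hc : c < 1) (hC : 0 ≤ C) (h : Projection (C ^ 3) c) :
    Sparse C c := by
  intro n N A hA h1 h2 h3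
  have h4 := h n A hA
  have h5 : ((#(X A) * #(Y A) * #(S A) : ℕ) : ℝ) ≤ (N : ℝ) ^ 3 := by
    have : #(X A) * #(Y A) * #(S A) ≤ N ^ 3 := by
      calc #(X A) * #(Y A) * #(S A) ≤ N * N * N := Nat.mul_le_mul (Nat.mul_le_mul h1 h2) h3
        _ = N ^ 3 := by ring
    exact_mod_cast this
  have h6 : (#A : ℝ) ^ 3 ≤ (C * (N : ℝ) ^ (2 * (1 - c))) ^ 3 := by
    calc (#A : ℝ) ^ 3 ≤ _ := h4
      _ ≤ C ^ 3 * ((N : ℝ) ^ 3) ^ (2 * (1 - c)) :=
          mul_le_mul_of_nonneg_left (Real.rpow_le_rpow (Nat.cast_nonneg _) h5 (by linarith))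
            (by positivity)
      _ = _ := by
          rw [mul_pow, ← Real.rpow_natCast (N : ℝ) 3,
            ← Real.rpow_natCast ((N : ℝ) ^ (2 * (1 - c))) 3,
            ← Real.rpow_mul (Nat.cast_nonneg _), ← Real.rpow_mul (Nat.cast_nonneg _)]
          congr 2
          push_cast
          ring
  exact le_of_pow_le_pow_left₀ three_ne_zero (by positivity) h6

lemma saving_of_sparse {c C : ℝ} (hC : 0 < C) (h : Sparse C c) : Saving c := by
  refine ⟨C, hC, fun n _ A hA => ?_⟩
  refine (h n (2 ^ n) A hA (card_le_two n _) (card_le_two n _) (card_le_two n _)).trans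
    (le_of_eq ?_)
  congr 1
  rw [show (4 : ℝ) = 2 ^ (2 : ℝ) by norm_num, Nat.cast_pow, Nat.cast_ofNat,
    ← Real.rpow_natCast, ← Real.rpow_mul (by norm_num), ← Real.rpow_mul (by norm_num)]
  congr 1
  ring

/-- **Theorem.** For every real `c < 1` the following are equivalent.
(1) The power-saving bound `|A| ≤ C 4^((1-c)n)` for all corner-free sets.
(2) Young's inequality over corner-free sets with exponent `3 / (2 (1 - c))` and constant one.
(3) The same with some constant.
(4) `|A|^3 ≤ (|X| |Y| |S|)^(2(1-c))` for all corner-free sets.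
(5) The same up to a constant factor.
(6) `|A| ≤ N^(2(1-c))` for all corner-free sets whose three projections have at most `N` elements.
(7) The same up to a constant factor. -/
theorem result (c : ℝ) (hc : c < 1) :
    List.TFAE [Saving c,
      Young 1 (3 / (2 * (1 - c))), ∃ C : ℝ, 0 < C ∧ Young C (3 / (2 * (1 - c))),
      Projection 1 c, ∃ C : ℝ, 0 < C ∧ Projection C c,
      Sparse 1 c, ∃ C : ℝ, 0 < C ∧ Sparse C c] := by
  tfae_have 1 → 4 := projection_of_saving hc.le
  tfae_have 4 → 2 := young_of_projection hc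
  tfae_have 2 → 3 := fun h => ⟨1, one_pos, h⟩
  tfae_have 3 → 5 := fun ⟨C, hC, h⟩ => ⟨C ^ 3, by positivity, projection_of_young hc hC h⟩
  tfae_have 5 → 7 := by
    rintro ⟨C, hC, h⟩
    refine ⟨C ^ ((1 : ℝ) / 3), by positivity, sparse_of_projection hc (by positivity) ?_⟩
    have e : (C ^ ((1 : ℝ) / 3)) ^ 3 = C := by
      rw [← Real.rpow_natCast, ← Real.rpow_mul hC.le]
      norm_num
    rw [e]
    exact h
  tfae_have 4 → 6 := fun h => sparse_of_projection hc zero_le_one (by rwa [one_pow])
  tfae_have 6 → 7 := fun h => ⟨1, one_pos, h⟩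
  tfae_have 7 → 1 := fun ⟨C, hC, h⟩ => saving_of_sparse hC h
  tfae_finish

end Pool.Agent.Results.MP_db4732_co.YoungInequality
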